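import Mathlib

/-!
# Rationalization of groups is not conditionally flat
-/

namespace Pool.Agent.Results.MP_a437dc_al.NotConditionallyFlat

/-- The local groups for rationalization: `x ↦ x ^ p` is a bijection for every prime `p`. -/
def IsLocalGp (T : Type) [Group T] : Prop :=
  ∀ p : Nat.Primes, Function.Bijective (fun x : T => x ^ (p : ℕ))

/-! ### The rationalization of a group, as the free local group on the group -/

/-- Terms. -/
inductive Pre (G : Type) : Type
  | of : G → Pre G
  | one : Pre G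
  | mul : Pre G → Pre G → Pre G
  | inv : Pre G → Pre G
  | root : Nat.Primes → Pre G → Pre G

/-- Powers of terms. -/
def Pre.npow {G : Type} (x : Pre G) : ℕ → Pre G
  | 0 => Pre.one
  | n + 1 => Pre.mul (Pre.npow x n) x

/-- The congruence on terms generated by the group axioms, the multiplication table of `G`, and
the relations saying that `root p` is the inverse function of the `p`-th power. -/
inductive Rel (G : Type) [Group G] : Pre G → Pre G → Prop
  | refl (x) : Rel G x x
  | symm {x y} : Rel G x y → Rel G y x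
  | trans {x y z} : Rel G x y → Rel G y z → Rel G x z
  | mul_congr {x x' y y'} : Rel G x x' → Rel G y y' → Rel G (.mul x y) (.mul x' y')
  | inv_congr {x x'} : Rel G x x' → Rel G (.inv x) (.inv x')
  | root_congr (p) {x x'} : Rel G x x' → Rel G (.root p x) (.root p x')
  | mul_assoc (x y z) : Rel G (.mul (.mul x y) z) (.mul x (.mul y z))
  | one_mul (x) : Rel G (.mul .one x) x
  | inv_mul (x) : Rel G (.mul (.inv x) x) .one
  | of_mul (x y) : Rel G (.of (x * y)) (.mul (.of x) (.of y))
  | root_npow (p : Nat.Primes) (x) : Rel G (.npow (.root p x) p) x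
  | npow_root (p : Nat.Primes) (x) : Rel G (.root p (.npow x p)) x

/-- The setoid of the congruence. -/
def relSetoid (G : Type) [Group G] : Setoid (Pre G) where
  r := Rel G
  iseqv := ⟨Rel.refl, Rel.symm, Rel.trans⟩

/-- The rationalization `L G`. -/
def L (G : Type) [Group G] : Type := Quotient (relSetoid G)

section Basic

variable {G : Type} [Group G]

/-- The class of a term. -/
def L.mk (x : Pre G) : L G := Quotient.mk (relSetoid G) x

theorem L.sound {x y : Pre G} (h : Rel G x y) : L.mk x = L.mk y := Quotient.sound h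

instance : Mul (L G) :=
  ⟨Quotient.map₂ Pre.mul fun _ _ h1 _ _ h2 => Rel.mul_congr h1 h2⟩

instance : Inv (L G) := ⟨Quotient.map Pre.inv fun _ _ h => Rel.inv_congr h⟩

instance : One (L G) := ⟨L.mk Pre.one⟩

theorem L.mk_mul (x y : Pre G) : L.mk (.mul x y) = L.mk x * L.mk y := rfl

theorem L.mk_inv (x : Pre G) : L.mk (.inv x) = (L.mk x)⁻¹ := rfl

theorem L.mk_one : L.mk (.one : Pre G) = 1 := rfl

instance : Group (L G) :=
  Group.ofLeftAxioms
    (by
      rintro ⟨x⟩ ⟨y⟩ ⟨z⟩
      exact L.sound (Rel.mul_assoc x y z))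
    (by
      rintro ⟨x⟩
      exact L.sound (Rel.one_mul x))
    (by
      rintro ⟨x⟩
      exact L.sound (Rel.inv_mul x))

theorem L.mk_npow (x : Pre G) (n : ℕ) : L.mk (.npow x n) = L.mk x ^ n := by
  induction n with
  | zero => rw [pow_zero]; rfl
  | succ n ih =>
    rw [pow_succ, ← ih]
    rfl

theorem L.isLocalGp : IsLocalGp (L G) := by
  intro p
  refine Function.bijective_iff_has_inverse.mpr
    ⟨Quotient.map (Pre.root p) fun _ _ h => Rel.root_congr p h, ?_, ?_⟩
  · rintro ⟨x⟩
    have h1 : L.mk (.root p (.npow x p)) = L.mk x := L.sound (Rel.npow_root p x)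
    have h2 : Quotient.map (Pre.root p) (fun _ _ h => Rel.root_congr p h) (L.mk (.npow x p)) =
        L.mk (.root p (.npow x p)) := rfl
    rw [L.mk_npow] at h2
    exact h2.trans h1
  · rintro ⟨x⟩
    have h1 : L.mk (.npow (.root p x) p) = L.mk x := L.sound (Rel.root_npow p x)
    rw [L.mk_npow] at h1
    exact h1

/-- The unit `η_G : G → L G`. -/
def L.of : G →* L G where
  toFun x := L.mk (.of x)
  map_one' := by
    have h : L.mk (.of (1 : G)) = L.mk (.of (1 : G)) * L.mk (.of (1 : G)) := by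
      have := L.sound (Rel.of_mul (1 : G) 1)
      rwa [mul_one] at this
    exact (left_eq_mul.mp h)
  map_mul' x y := L.sound (Rel.of_mul x y)

section Lift

variable {T : Type} [Group T] (hT : IsLocalGp T) (f : G →* T)

/-- Evaluation of terms in a local group. -/
noncomputable def evalPre : Pre G → T
  | .of x => f x
  | .one => 1
  | .mul x y => evalPre x * evalPre y
  | .inv x => (evalPre x)⁻¹
  | .root p x => (Equiv.ofBijective _ (hT p)).symm (evalPre x)

theorem evalPre_npow (x : Pre G) (n : ℕ) :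
    evalPre hT f (.npow x n) = evalPre hT f x ^ n := by
  induction n with
  | zero => rw [pow_zero]; rfl
  | succ n ih =>
    rw [pow_succ, ← ih]
    rfl

theorem evalPre_rel {x y : Pre G} (h : Rel G x y) : evalPre hT f x = evalPre hT f y := by
  induction h with
  | refl => rfl
  | symm _ ih => exact ih.symm
  | trans _ _ ih1 ih2 => exact ih1.trans ih2
  | mul_congr _ _ ih1 ih2 =>
    show _ * _ = _ * _
    rw [ih1, ih2]
  | inv_congr _ ih =>
    show _⁻¹ = _⁻¹
    rw [ih]
  | root_congr p _ ih =>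
    show (Equiv.ofBijective _ (hT p)).symm _ = (Equiv.ofBijective _ (hT p)).symm _
    rw [ih]
  | mul_assoc x y z => exact mul_assoc _ _ _
  | one_mul x => exact one_mul _
  | inv_mul x => exact inv_mul_cancel _
  | of_mul x y => exact map_mul f x y
  | root_npow p x =>
    rw [evalPre_npow]
    exact (Equiv.ofBijective _ (hT p)).apply_symm_apply (evalPre hT f x)
  | npow_root p x =>
    show (Equiv.ofBijective _ (hT p)).symm (evalPre hT f (.npow x p)) = _
    rw [evalPre_npow]
    exact (Equiv.ofBijective _ (hT p)).symm_apply_apply (evalPre hT f x)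

/-- The extension of a homomorphism to a local group along `η_G`. -/
noncomputable def L.lift : L G →* T where
  toFun := Quotient.lift (evalPre hT f) fun _ _ h => evalPre_rel hT f h
  map_one' := rfl
  map_mul' := by
    rintro ⟨x⟩ ⟨y⟩
    rfl

theorem L.lift_of (x : G) : L.lift hT f (L.of x) = f x := rfl

end Lift

/-- Homomorphisms from `L G` to a local group are determined by their restriction to `G`. -/
theorem L.hom_ext {T : Type} [Group T] (hT : IsLocalGp T) {φ ψ : L G →* T}
    (h : ∀ x, φ (L.of x) = ψ (L.of x)) : φ = ψ := by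
  ext x
  obtain ⟨x, rfl⟩ : ∃ y, L.mk y = x := Quotient.exists_rep x
  induction x with
  | of x => exact h x
  | one => rw [L.mk_one, map_one, map_one]
  | mul x y ihx ihy => rw [L.mk_mul, map_mul, map_mul, ihx, ihy]
  | inv x ih => rw [L.mk_inv, map_inv, map_inv, ih]
  | root p x ih =>
    apply (hT p).1
    show φ _ ^ (p : ℕ) = ψ _ ^ (p : ℕ)
    have h1 : L.mk (.root p x) ^ (p : ℕ) = L.mk x := by
      rw [← L.mk_npow]
      exact L.sound (Rel.root_npow p x)
    rw [← map_pow, ← map_pow, h1, ih]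

/-- The universal property of `η_G : G → L G`. -/
theorem L.universal {T : Type} [Group T] (hT : IsLocalGp T) (f : G →* T) :
    ∃! g : L G →* T, ∀ x, g (L.of x) = f x :=
  ⟨L.lift hT f, L.lift_of hT f, fun g hg => L.hom_ext hT fun x => by rw [hg, L.lift_of]⟩

/-- The functor `L` on homomorphisms. -/
noncomputable def L.map {H : Type} [Group H] (f : G →* H) : L G →* L H :=
  L.lift L.isLocalGp (L.of.comp f)

theorem L.map_of {H : Type} [Group H] (f : G →* H) (x : G) : L.map f (L.of x) = L.of (f x) := rfl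

/-- For a local group, `η_G` is bijective. -/
theorem L.of_bijective (hG : IsLocalGp G) : Function.Bijective (L.of : G →* L G) := by
  refine Function.bijective_iff_has_inverse.mpr ⟨L.lift hG (MonoidHom.id G), fun x => ?_,
    fun x => ?_⟩
  · exact L.lift_of _ _ x
  · have h : (L.of.comp (L.lift hG (MonoidHom.id G))) = MonoidHom.id (L G) :=
      L.hom_ext L.isLocalGp fun x => rfl
    exact DFunLike.congr_fun h x

end Basic

/-! ### Flatness -/

/-- A short exact sequence `1 → N → E → G → 1`. -/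
structure ShortExact {N E G : Type} [Group N] [Group E] [Group G] (i : N →* E) (p : E →* G) :
    Prop where
  inj : Function.Injective i
  exact : i.range = p.ker
  surj : Function.Surjective p

/-- `L`-flat extensions. -/
def LFlat {N E G : Type} [Group N] [Group E] [Group G] (i : N →* E) (p : E →* G) : Prop :=
  ShortExact (L.map i) (L.map p)

/-- The pullback `E ×_G H`. -/
abbrev Pull {E G H : Type} [Group E] [Group G] [Group H] (p : E →* G) (a : H →* G) :
    Subgroup (E × H) :=
  (p.comp (MonoidHom.fst E H)).eqLocus (a.comp (MonoidHom.snd E H))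

/-- The inclusion `N → E ×_G H`. -/
def pullInl {N E G H : Type} [Group N] [Group E] [Group G] [Group H] {i : N →* E} {p : E →* G}
    (h : ShortExact i p) (a : H →* G) : N →* Pull p a where
  toFun n := ⟨(i n, 1), by
    show p (i n) = a 1
    have : i n ∈ p.ker := by rw [← h.exact]; exact ⟨n, rfl⟩
    rw [map_one]; exact this⟩
  map_one' := by apply Subtype.ext; simp
  map_mul' x y := by apply Subtype.ext; simp

/-- The projection `E ×_G H → H`. -/
def pullSnd {E G H : Type} [Group E] [Group G] [Group H] (p : E →* G) (a : H →* G) :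
    Pull p a →* H :=
  (MonoidHom.snd E H).comp (Pull p a).subtype

/-- Conditional flatness of `L`: the pullback of every `L`-flat extension along every
homomorphism is `L`-flat. -/
def ConditionallyFlat : Prop :=
  ∀ (N E G H : Type) [Group N] [Group E] [Group G] [Group H] (i : N →* E) (p : E →* G)
    (h : ShortExact i p) (a : H →* G), LFlat i p → LFlat (pullInl h a) (pullSnd p a)

/-! ### The counterexample -/

/-- The group `ℂ ⋊ ℚ`, where `q ∈ ℚ` acts as multiplication by `exp (c q)`. -/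
@[ext] structure Sd (c : ℂ) where
  /-- The component in `ℂ`. -/
  v : ℂ
  /-- The component in `ℚ`. -/
  q : ℚ

/-- The action. -/
noncomputable def ch (c : ℂ) (q : ℚ) : ℂ := Complex.exp (c * q)

theorem ch_zero (c : ℂ) : ch c 0 = 1 := by simp [ch]

theorem ch_add (c : ℂ) (q r : ℚ) : ch c (q + r) = ch c q * ch c r := by
  unfold ch
  rw [← Complex.exp_add]
  push_cast
  congr 1
  ring

theorem ch_ne_zero (c : ℂ) (q : ℚ) : ch c q ≠ 0 := Complex.exp_ne_zero _

variable {c : ℂ}

noncomputable instance : Mul (Sd c) := ⟨fun x y => ⟨x.v + ch c x.q * y.v, x.q + y.q⟩⟩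

noncomputable instance : One (Sd c) := ⟨⟨0, 0⟩⟩

noncomputable instance : Inv (Sd c) := ⟨fun x => ⟨-(ch c (-x.q) * x.v), -x.q⟩⟩

theorem mul_v (x y : Sd c) : (x * y).v = x.v + ch c x.q * y.v := rfl

theorem mul_q (x y : Sd c) : (x * y).q = x.q + y.q := rfl

theorem one_v : (1 : Sd c).v = 0 := rfl

theorem one_q : (1 : Sd c).q = 0 := rfl

theorem inv_v (x : Sd c) : (x⁻¹).v = -(ch c (-x.q) * x.v) := rfl

theorem inv_q (x : Sd c) : (x⁻¹).q = -x.q := rfl

noncomputable instance : Group (Sd c) :=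
  Group.ofLeftAxioms
    (fun x y z => by
      apply Sd.ext
      · rw [mul_v, mul_v, mul_v, mul_v, mul_q, ch_add]; ring
      · rw [mul_q, mul_q, mul_q, mul_q, add_assoc])
    (fun x => by
      apply Sd.ext
      · rw [mul_v, one_v, one_q, ch_zero]; ring
      · rw [mul_q, one_q, zero_add])
    (fun x => by
      apply Sd.ext
      · rw [mul_v, inv_v, inv_q, one_v]; ring
      · rw [mul_q, inv_q, one_q, neg_add_cancel])

theorem pow_q (x : Sd c) (n : ℕ) : (x ^ n).q = n * x.q := by
  induction n with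
  | zero => simp [one_q]
  | succ n ih => rw [pow_succ, mul_q, ih]; push_cast; ring

theorem ch_nat (q : ℚ) (n : ℕ) : ch c (n * q) = ch c q ^ n := by
  induction n with
  | zero => simp [ch_zero]
  | succ n ih =>
    rw [pow_succ, ← ih, ← ch_add]
    congr 1
    push_cast
    ring

theorem pow_v (x : Sd c) (n : ℕ) : (x ^ n).v = (∑ i ∈ Finset.range n, ch c x.q ^ i) * x.v := by
  induction n with
  | zero => simp [one_v]
  | succ n ih =>
    rw [pow_succ, mul_v, ih, pow_q, ch_nat, Finset.sum_range_succ]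
    ring

theorem sum_ne_zero (hc : c.re ≠ 0) (q : ℚ) {n : ℕ} (hn : n ≠ 0) :
    ∑ i ∈ Finset.range n, ch c q ^ i ≠ 0 := by
  by_cases hq : q = 0
  · subst hq
    simp [ch_zero, hn]
  · intro h
    have h1 := geom_sum_mul (ch c q) n
    rw [h, zero_mul] at h1
    have h2 : ch c (n * q) = 1 := by rw [ch_nat]; exact (sub_eq_zero.mp h1.symm)
    have h3 : ‖ch c (n * q)‖ = 1 := by rw [h2, norm_one]
    unfold ch at h3
    rw [Complex.norm_exp] at h3
    have h4 : (c * ((n * q : ℚ) : ℂ)).re = c.re * (n * q : ℚ) := by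
      have : ((n * q : ℚ) : ℂ) = (((n * q : ℚ) : ℝ) : ℂ) := by push_cast; rfl
      rw [this, Complex.re_mul_ofReal]
    rw [h4, Real.exp_eq_one_iff] at h3
    have h5 : ((n * q : ℚ) : ℝ) ≠ 0 := by
      have : (n * q : ℚ) ≠ 0 := mul_ne_zero (by exact_mod_cast hn) hq
      exact_mod_cast this
    exact (mul_ne_zero hc h5) h3

theorem sd_local (hc : c.re ≠ 0) : IsLocalGp (Sd c) := by
  intro p
  have hp : (p : ℕ) ≠ 0 := p.2.ne_zero
  have hpq : ((p : ℕ) : ℚ) ≠ 0 := by exact_mod_cast hp
  constructor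
  · intro x y h
    have h' : x ^ (p : ℕ) = y ^ (p : ℕ) := h
    have hq : x.q = y.q := by
      have := congrArg Sd.q h'
      rw [pow_q, pow_q] at this
      exact mul_left_cancel₀ hpq this
    apply Sd.ext _ hq
    have := congrArg Sd.v h'
    rw [pow_v, pow_v, hq] at this
    exact mul_left_cancel₀ (sum_ne_zero hc y.q hp) this
  · intro y
    refine ⟨⟨(∑ i ∈ Finset.range (p : ℕ), ch c (y.q / (p : ℕ)) ^ i)⁻¹ * y.v, y.q / (p : ℕ)⟩, ?_⟩
    apply Sd.ext
    · show (_ ^ (p : ℕ) : Sd c).v = _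
      rw [pow_v]
      show _ * (_⁻¹ * y.v) = y.v
      rw [← mul_assoc, mul_inv_cancel₀ (sum_ne_zero hc _ hp), one_mul]
    · show (_ ^ (p : ℕ) : Sd c).q = _
      rw [pow_q]
      exact mul_div_cancel₀ _ hpq

/-- The additive groups of `ℚ`-vector spaces are local. -/
theorem local_of_module (V : Type) [AddCommGroup V] [Module ℚ V] :
    IsLocalGp (Multiplicative V) := by
  intro p
  have hp : ((p : ℕ) : ℚ) ≠ 0 := by exact_mod_cast p.2.ne_zero
  have h : ∀ x : V, (p : ℕ) • x = ((p : ℕ) : ℚ) • x := fun x => (Nat.cast_smul_eq_nsmul ℚ _ x).symm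
  constructor
  · intro x y hxy
    have h1 : (p : ℕ) • (Multiplicative.toAdd x) = (p : ℕ) • (Multiplicative.toAdd y) := hxy
    rw [h, h] at h1
    exact smul_right_injective V hp h1
  · intro y
    refine ⟨Multiplicative.ofAdd ((((p : ℕ) : ℚ)⁻¹) • Multiplicative.toAdd y), ?_⟩
    show (p : ℕ) • ((((p : ℕ) : ℚ)⁻¹) • Multiplicative.toAdd y) = Multiplicative.toAdd y
    rw [h, smul_smul, mul_inv_cancel₀ hp, one_smul]

/-- The inclusion `ℂ → ℂ ⋊ ℚ`. -/
noncomputable def inl (c : ℂ) : Multiplicative ℂ →* Sd c where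
  toFun x := ⟨x.toAdd, 0⟩
  map_one' := rfl
  map_mul' x y := by
    apply Sd.ext
    · show x.toAdd + y.toAdd = x.toAdd + ch c 0 * y.toAdd
      rw [ch_zero, one_mul]
    · show (0 : ℚ) = 0 + 0
      rw [add_zero]

/-- The projection `ℂ ⋊ ℚ → ℚ`. -/
def proj (c : ℂ) : Sd c →* Multiplicative ℚ where
  toFun x := Multiplicative.ofAdd x.q
  map_one' := rfl
  map_mul' _ _ := rfl

theorem shortExact (c : ℂ) : ShortExact (inl c) (proj c) where
  inj x y h := congrArg Sd.v h
  exact := by
    ext x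
    constructor
    · rintro ⟨y, rfl⟩
      rfl
    · intro hx
      exact ⟨Multiplicative.ofAdd x.v, Sd.ext rfl (show (0 : ℚ) = x.q from
        (show Multiplicative.ofAdd x.q = 1 from hx).symm)⟩
  surj x := ⟨⟨0, x.toAdd⟩, rfl⟩

/-- Extensions of local groups are `L`-flat. -/
theorem lflat_of_local {N E G : Type} [Group N] [Group E] [Group G] {i : N →* E} {p : E →* G}
    (h : ShortExact i p) (hN : IsLocalGp N) (hE : IsLocalGp E) (hG : IsLocalGp G) :
    LFlat i p where
  inj x y hxy := by
    obtain ⟨x, rfl⟩ := (L.of_bijective hN).2 x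
    obtain ⟨y, rfl⟩ := (L.of_bijective hN).2 y
    rw [L.map_of, L.map_of] at hxy
    rw [h.inj ((L.of_bijective hE).1 hxy)]
  exact := by
    ext x
    obtain ⟨x, rfl⟩ := (L.of_bijective hE).2 x
    constructor
    · rintro ⟨y, hy⟩
      obtain ⟨y, rfl⟩ := (L.of_bijective hN).2 y
      rw [L.map_of] at hy
      have h1 := (L.of_bijective hE).1 hy
      have h2 : x ∈ p.ker := by rw [← h.exact, ← h1]; exact ⟨y, rfl⟩
      show L.map p (L.of x) = 1
      rw [L.map_of, show p x = 1 from h2, map_one]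
    · intro hx
      have h1 : L.of (p x) = L.of 1 := by rw [← L.map_of, map_one]; exact hx
      have h2 : x ∈ i.range := by rw [h.exact]; exact (L.of_bijective hG).1 h1
      obtain ⟨y, rfl⟩ := h2
      exact ⟨L.of y, rfl⟩
  surj x := by
    obtain ⟨x, rfl⟩ := (L.of_bijective hG).2 x
    obtain ⟨y, rfl⟩ := h.surj x
    exact ⟨L.of y, rfl⟩

/-- The inclusion `ℤ → ℚ`. -/
def zq : Multiplicative ℤ →* Multiplicative ℚ :=
  AddMonoidHom.toMultiplicative (Int.castAddHom ℚ)

/-- The first exponent. -/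
noncomputable def c₁ : ℂ := 1

/-- The second exponent. -/
noncomputable def c₂ : ℂ := 1 + 2 * Real.pi * Complex.I

theorem c₁_re : c₁.re ≠ 0 := by simp [c₁]

theorem c₂_re : c₂.re ≠ 0 := by simp [c₂]

theorem ch_int (n : ℤ) : ch c₂ n = ch c₁ n := by
  unfold ch c₁ c₂
  have : (1 + 2 * (Real.pi : ℂ) * Complex.I) * ((n : ℚ) : ℂ) =
      1 * ((n : ℚ) : ℂ) + n * (2 * Real.pi * Complex.I) := by push_cast; ring
  rw [this, Complex.exp_add, Complex.exp_int_mul_two_pi_mul_I, mul_one]

theorem ch_half : ch c₂ (1 / 2) = -ch c₁ (1 / 2) := by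
  unfold ch c₁ c₂
  have : (1 + 2 * (Real.pi : ℂ) * Complex.I) * (((1 / 2 : ℚ)) : ℂ) =
      1 * ((1 / 2 : ℚ) : ℂ) + Real.pi * Complex.I := by push_cast; ring
  rw [this, Complex.exp_add, Complex.exp_pi_mul_I]
  ring

/-- The second homomorphism from the pullback. -/
noncomputable def toSd₂ : Pull (proj c₁) zq →* Sd c₂ where
  toFun x := ⟨x.1.1.v, x.1.1.q⟩
  map_one' := rfl
  map_mul' x y := by
    apply Sd.ext
    · show x.1.1.v + ch c₁ x.1.1.q * y.1.1.v = x.1.1.v + ch c₂ x.1.1.q * y.1.1.v
      have h : x.1.1.q = ((x.1.2.toAdd : ℤ) : ℚ) := x.2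
      rw [h, ch_int]
    · rfl

/-- The first homomorphism from the pullback. -/
noncomputable def toSd₁ : Pull (proj c₁) zq →* Sd c₁ :=
  (MonoidHom.fst _ _).comp (Pull (proj c₁) zq).subtype

theorem root_eq (hc : c.re ≠ 0) {s : Sd c} (hs : s ^ 2 = ⟨0, 1⟩) : s = ⟨0, 1 / 2⟩ := by
  apply (sd_local hc ⟨2, Nat.prime_two⟩).1
  show s ^ 2 = (⟨0, 1 / 2⟩ : Sd c) ^ 2
  rw [hs]
  apply Sd.ext
  · rw [pow_v]; simp
  · rw [pow_q]; norm_num

theorem conj_eq (x : ℂ) (q : ℚ) : (⟨0, q⟩ : Sd c) * ⟨x, 0⟩ * (⟨0, q⟩ : Sd c)⁻¹ = ⟨ch c q * x, 0⟩ := by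
  apply Sd.ext
  · rw [mul_v, mul_v, inv_v]
    show 0 + ch c q * x + _ * -(ch c (-q) * 0) = ch c q * x
    ring
  · rw [mul_q, mul_q, inv_q]
    show q + 0 + -q = 0
    ring

theorem not_conditionallyFlat : ¬ ConditionallyFlat := by
  intro hflat
  have hN : IsLocalGp (Multiplicative ℂ) := local_of_module ℂ
  have h1 := hflat _ _ _ _ (inl c₁) (proj c₁) (shortExact c₁) zq
    (lflat_of_local (shortExact c₁) hN (sd_local c₁_re) (local_of_module ℚ))
  set iP := pullInl (shortExact c₁) zq with hiP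
  -- the element `t`
  let t : Pull (proj c₁) zq := ⟨(⟨0, 1⟩, Multiplicative.ofAdd 1), by
    show Multiplicative.ofAdd (1 : ℚ) = Multiplicative.ofAdd ((1 : ℤ) : ℚ)
    rw [Int.cast_one]⟩
  obtain ⟨s, hs⟩ := (L.isLocalGp (G := Pull (proj c₁) zq) ⟨2, Nat.prime_two⟩).2 (L.of t)
  have hs' : s ^ 2 = L.of t := hs
  -- the conjugate of `1 ∈ ℂ`
  have hker : s * L.of (iP (Multiplicative.ofAdd 1)) * s⁻¹ ∈ (L.map (pullSnd (proj c₁) zq)).ker := by
    show L.map _ _ = 1
    rw [map_mul, map_mul, L.map_of]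
    have : pullSnd (proj c₁) zq (iP (Multiplicative.ofAdd 1)) = 1 := rfl
    rw [this, map_one, map_inv, mul_one, mul_inv_cancel]
  rw [← h1.exact] at hker
  obtain ⟨n, hn⟩ := hker
  obtain ⟨n, rfl⟩ := (L.of_bijective hN).2 n
  rw [L.map_of] at hn
  -- evaluate in `Sd c₁`
  have e1 : n.toAdd = ch c₁ (1 / 2) := by
    have h2 := congrArg (L.lift (sd_local c₁_re) toSd₁) hn
    rw [map_mul, map_mul, map_inv, L.lift_of, L.lift_of] at h2
    have h3 : L.lift (sd_local c₁_re) toSd₁ s = ⟨0, 1 / 2⟩ := by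
      apply root_eq c₁_re
      rw [← map_pow, hs', L.lift_of]
      rfl
    rw [h3] at h2
    have h4 : toSd₁ (iP (Multiplicative.ofAdd 1)) = ⟨1, 0⟩ := rfl
    rw [h4, conj_eq] at h2
    have h5 := congrArg Sd.v h2
    have h6 : n.toAdd = ch c₁ (1 / 2) * 1 := h5
    rw [h6, mul_one]
  have e2 : n.toAdd = ch c₂ (1 / 2) := by
    have h2 := congrArg (L.lift (sd_local c₂_re) toSd₂) hn
    rw [map_mul, map_mul, map_inv, L.lift_of, L.lift_of] at h2
    have h3 : L.lift (sd_local c₂_re) toSd₂ s = ⟨0, 1 / 2⟩ := by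
      apply root_eq c₂_re
      rw [← map_pow, hs', L.lift_of]
      rfl
    rw [h3] at h2
    have h4 : toSd₂ (iP (Multiplicative.ofAdd 1)) = ⟨1, 0⟩ := rfl
    rw [h4, conj_eq] at h2
    have h5 := congrArg Sd.v h2
    have h6 : n.toAdd = ch c₂ (1 / 2) * 1 := h5
    rw [h6, mul_one]
  rw [e2, ch_half] at e1
  have h7 : ch c₁ (1 / 2) = 0 := by linear_combination (-1 / 2 : ℂ) * e1
  exact ch_ne_zero _ _ h7

/-- **Theorem.** Rationalization is not conditionally flat in the category of groups. (The first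
part states that `L`, with the unit `L.of : G → L G`, is rationalization.) -/
theorem result :
    (∀ (G : Type) [Group G], IsLocalGp (L G) ∧ ∀ (T : Type) [Group T], IsLocalGp T →
      ∀ f : G →* T, ∃! g : L G →* T, ∀ x, g (L.of x) = f x) ∧
    (∀ (G H : Type) [Group G] [Group H] (f : G →* H) (x : G), L.map f (L.of x) = L.of (f x)) ∧
    ¬ ConditionallyFlat :=
  ⟨fun _ _ => ⟨L.isLocalGp, fun _ _ hT f => L.universal hT f⟩, fun _ _ _ _ f x => L.map_of f x,
    not_conditionallyFlat⟩

end Pool.Agent.Results.MP_a437dc_al.NotConditionallyFlat
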